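import Pool.Agent.W743.BT.Defs

set_option autoImplicit false

/-! BT-MK: elementary facts on the symbols. -/

namespace Pool.Agent.W505.BT

open Set Filter MeasureTheory
open scoped Topology ENNReal ContDiff
open Pool.Agent.W743.BT
open Pool.Agent.W773.BRA (E Bmp chi chi_one chi_zero chi_nonneg chi_le_one chi_contDiff)

theorem th_contDiff : ContDiff ℝ ∞ th := chi_contDiff.comp (contDiff_id.pow 2)

theorem th_nonneg (t : ℝ) : 0 ≤ th t := chi_nonneg _
theorem th_le_one (t : ℝ) : th t ≤ 1 := chi_le_one _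
theorem th_one {t : ℝ} (h : t ^ 2 ≤ 1) : th t = 1 := chi_one h
theorem th_zero {t : ℝ} (h : 2 ≤ t ^ 2) : th t = 0 := chi_zero h

theorem w_contDiff (K i : ℕ) : ContDiff ℝ ∞ (w K i) := by
  unfold w
  split_ifs with h
  · exact (th_contDiff.comp (contDiff_const.mul contDiff_id)).sub
      (th_contDiff.comp (contDiff_const.mul contDiff_id))
  · exact th_contDiff.comp (contDiff_const.mul contDiff_id)

theorem w_abs (K i : ℕ) (t : ℝ) : |w K i t| ≤ 1 := by
  unfold w
  split_ifs with h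
  · rw [abs_le]
    constructor <;> linarith [th_nonneg (2 ^ i * t), th_le_one (2 ^ i * t),
      th_nonneg (2 ^ (i + 1) * t), th_le_one (2 ^ (i + 1) * t)]
  · rw [abs_of_nonneg (th_nonneg _)]
    exact th_le_one _

theorem w_sum (K : ℕ) (t : ℝ) : ∑ i ∈ Finset.range (K + 1), w K i t = th t := by
  rw [Finset.sum_range_succ]
  have h1 : ∀ i ∈ Finset.range K, w K i t = th (2 ^ i * t) - th (2 ^ (i + 1) * t) := by
    intro i hi
    unfold w
    rw [if_pos (Finset.mem_range.1 hi)]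
  rw [Finset.sum_congr rfl h1, Finset.sum_range_sub' (fun i => th (2 ^ i * t))]
  unfold w
  rw [if_neg (lt_irrefl K), pow_zero, one_mul]
  ring

theorem half_pow (i : ℕ) : (1 / 2 : ℝ) ^ i = 1 / 2 ^ i := by rw [div_pow, one_pow]

theorem w_supp {K i : ℕ} {t : ℝ} (hi : i ≤ K) (h : w K i t ≠ 0) :
    |t| ≤ 2 * (1 / 2 : ℝ) ^ i ∧ (i < K → (1 / 2 : ℝ) ^ i / 2 ≤ |t|) := by
  have hpos : (0 : ℝ) < 2 ^ i := by positivity
  have key : (2 ^ i * t) ^ 2 < 2 := by
    by_contra hcon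
    push Not at hcon
    apply h
    unfold w
    split_ifs with hk
    · rw [th_zero hcon, th_zero (by
        have : (2 ^ (i + 1) * t) ^ 2 = 4 * (2 ^ i * t) ^ 2 := by ring
        rw [this]; linarith), sub_zero]
    · have : i = K := by omega
      rw [← this]
      exact th_zero hcon
  constructor
  · have h1 : |2 ^ i * t| ≤ 2 := by
      apply abs_le_of_sq_le_sq _ (by norm_num)
      linarith
    rw [abs_mul, abs_of_pos hpos] at h1
    rw [half_pow, mul_one_div, le_div_iff₀ hpos, mul_comm]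
    exact h1
  · intro hk
    have key2 : 1 < (2 ^ (i + 1) * t) ^ 2 := by
      by_contra hcon
      push Not at hcon
      apply h
      unfold w
      rw [if_pos hk, th_one hcon, th_one (by
        have : (2 ^ (i + 1) * t) ^ 2 = 4 * (2 ^ i * t) ^ 2 := by ring
        rw [this] at hcon
        nlinarith [sq_nonneg (2 ^ i * t)]), sub_self]
    have h1 : 1 ≤ |2 ^ (i + 1) * t| := by
      by_contra hcon
      push Not at hcon
      have : (2 ^ (i + 1) * t) ^ 2 < 1 := by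
        rw [← sq_abs]
        nlinarith [abs_nonneg (2 ^ (i + 1) * t)]
      linarith
    rw [abs_mul, abs_of_pos (by positivity : (0 : ℝ) < 2 ^ (i + 1))] at h1
    rw [half_pow, div_div, div_le_iff₀ (by positivity), mul_comm, ← pow_succ]
    exact h1

theorem coord_contDiff {n : ℕ} (j : Fin n) : ContDiff ℝ ∞ (fun ξ : E n => ξ j) :=
  (EuclideanSpace.proj j : E n →L[ℝ] ℝ).contDiff

theorem mk_contDiff {n : ℕ} {h : ℝ → ℝ} (hh : Bmp h) (N : ℝ) (K : ℕ) (κ : Fin n → ℕ) :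
    ContDiff ℝ ∞ (mk (n := n) h N K κ) := by
  have h1 : ContDiff ℝ ∞ (fun ξ : E n => N * (1 - ‖ξ‖ ^ 2)) :=
    contDiff_const.mul (contDiff_const.sub (contDiff_norm_sq ℝ))
  have h2 : ContDiff ℝ ∞ (fun ξ : E n => W K κ ξ) := by
    unfold W
    exact contDiff_prod fun j _ => (w_contDiff K (κ j)).comp (coord_contDiff j)
  exact Complex.ofRealCLM.contDiff.comp ((hh.1.comp h1).mul h2)

theorem mk_ne {n : ℕ} {h : ℝ → ℝ} (hh : Bmp h) {N : ℝ} {K : ℕ} {κ : Fin n → ℕ} {ξ : E n}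
    (hx : mk h N K κ ξ ≠ 0) : (1 / 2 ≤ N * (1 - ‖ξ‖ ^ 2) ∧ N * (1 - ‖ξ‖ ^ 2) ≤ 2) ∧
      ∀ j, w K (κ j) (ξ j) ≠ 0 := by
  unfold Pool.Agent.W743.BT.mk at hx
  rw [Ne, Complex.ofReal_eq_zero, mul_eq_zero, not_or] at hx
  constructor
  · by_contra hcon
    exact hx.1 (hh.2 _ fun hm => hcon hm)
  · intro j hj
    exact hx.2 (Finset.prod_eq_zero (Finset.mem_univ j) hj)

theorem norm_le_of {N r : ℝ} (hN : 1 ≤ N) (hr : 0 ≤ r) (h : 1 / 2 ≤ N * (1 - r ^ 2)) : r ≤ 1 := by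
  by_contra hcon
  push Not at hcon
  have : N * (1 - r ^ 2) ≤ 0 := mul_nonpos_of_nonneg_of_nonpos (by linarith) (by nlinarith)
  linarith

theorem mkf : S_MK := by
  intro n h hh N K hN
  constructor
  · intro κ
    refine ⟨mk_contDiff hh N K κ, ?_, ?_, ?_⟩
    · apply HasCompactSupport.of_support_subset_isCompact (isCompact_closedBall (0 : E n) 1)
      intro ξ hξ
      rw [mem_closedBall_zero_iff]
      exact norm_le_of hN (norm_nonneg _) (mk_ne hh hξ).1.1
    · intro ξ hκ hξ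
      obtain ⟨⟨h1, h2⟩, h3⟩ := mk_ne hh hξ
      refine ⟨?_, norm_le_of hN (norm_nonneg _) h1⟩
      have hn : ‖ξ‖ ^ 2 = ∑ j, ξ j ^ 2 := EuclideanSpace.real_norm_sq_eq ξ
      rw [hn] at h1 h2
      exact ⟨h1, h2, fun j => w_supp (hκ j) (h3 j)⟩
    · intro B hB ξ
      unfold Pool.Agent.W743.BT.mk
      rw [Complex.norm_real, Real.norm_eq_abs, abs_mul]
      have h1 : |W K κ ξ| ≤ 1 := by
        unfold W
        rw [Finset.abs_prod]
        exact Finset.prod_le_one (fun _ _ => abs_nonneg _) fun j _ => w_abs _ _ _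
      have h0 : 0 ≤ |h (N * (1 - ‖ξ‖ ^ 2))| := abs_nonneg _
      calc |h (N * (1 - ‖ξ‖ ^ 2))| * |W K κ ξ| ≤ |h (N * (1 - ‖ξ‖ ^ 2))| * 1 :=
            mul_le_mul_of_nonneg_left h1 h0
        _ ≤ B := by rw [mul_one]; exact hB _
  · intro ξ
    have h1 : ∑ κ ∈ Fintype.piFinset (fun _ : Fin n => Finset.range (K + 1)), mk h N K κ ξ
        = ((h (N * (1 - ‖ξ‖ ^ 2)) * ∏ j, th (ξ j) : ℝ) : ℂ) := by
      have h2 : ∏ j, th (ξ j) = ∑ κ ∈ Fintype.piFinset (fun _ : Fin n => Finset.range (K + 1)),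
          W K κ ξ := by
        rw [← Finset.prod_congr rfl fun j _ => w_sum K (ξ j), Finset.prod_univ_sum]
        rfl
      rw [h2, Finset.mul_sum, Complex.ofReal_sum]
      rfl
    rw [h1]
    congr 1
    by_cases h0 : h (N * (1 - ‖ξ‖ ^ 2)) = 0
    · rw [h0, zero_mul]
    · have h3 : 1 / 2 ≤ N * (1 - ‖ξ‖ ^ 2) := by
        by_contra hcon
        exact h0 (hh.2 _ fun hm => hcon hm.1)
      have h4 : ‖ξ‖ ≤ 1 := norm_le_of hN (norm_nonneg _) h3
      have h5 : ∀ j, th (ξ j) = 1 := by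
        intro j
        apply th_one
        have h6 : |ξ j| ≤ ‖ξ‖ := PiLp.norm_apply_le ξ j
        have h7 : |ξ j| ≤ 1 := h6.trans h4
        rw [← sq_abs]
        nlinarith [abs_nonneg (ξ j)]
      rw [Finset.prod_congr rfl fun j _ => h5 j, Finset.prod_const_one, mul_one]

end Pool.Agent.W505.BT
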