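import Pool.Agent.W743.BT.Defs

set_option autoImplicit false

/-! BT-MEAS: the slices of `A N K κ` are short. -/

namespace Pool.Agent.W505.BT

open Set Filter MeasureTheory
open scoped Topology ENNReal
open Pool.Agent.W743.BT

theorem sum_upd {n : ℕ} (x : Fin n → ℝ) (j : Fin n) (t : ℝ) :
    ∑ l, Function.update x j t l ^ 2 = t ^ 2 + ∑ l ∈ Finset.univ.erase j, x l ^ 2 := by
  rw [← Finset.add_sum_erase _ _ (Finset.mem_univ j), Function.update_self]
  congr 1
  refine Finset.sum_congr rfl fun l hl => ?_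
  rw [Function.update_of_ne (Finset.ne_of_mem_erase hl)]

theorem vol_diam (S : Set ℝ) (d : ℝ) (h : ∀ x ∈ S, ∀ y ∈ S, |x - y| ≤ d) :
    volume S ≤ ENNReal.ofReal d := by
  refine (Real.volume_le_diam S).trans ?_
  refine Metric.ediam_le fun x hx y hy => ?_
  rw [edist_dist, Real.dist_eq]
  exact ENNReal.ofReal_le_ofReal (h x hx y hy)

theorem sq_close {N lam c s t : ℝ} (hN : 0 < N) (hlam : 0 < lam) (hs : lam / 2 ≤ s)
    (ht : lam / 2 ≤ t) (h1 : 1 / 2 ≤ N * (1 - (s ^ 2 + c))) (h2 : N * (1 - (s ^ 2 + c)) ≤ 2)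
    (h3 : 1 / 2 ≤ N * (1 - (t ^ 2 + c))) (h4 : N * (1 - (t ^ 2 + c)) ≤ 2) :
    |s - t| ≤ 3 / (2 * (N * lam)) := by
  have key : |s - t| * (s + t) ≤ 3 / (2 * N) := by
    have e1 : |s - t| * (s + t) = |s ^ 2 - t ^ 2| := by
      have : s ^ 2 - t ^ 2 = (s - t) * (s + t) := by ring
      rw [this, abs_mul, abs_of_nonneg (by linarith : 0 ≤ s + t)]
    rw [e1, le_div_iff₀ (by positivity)]
    have e2 : |s ^ 2 - t ^ 2| * (2 * N) = 2 * |N * (s ^ 2 - t ^ 2)| := by
      rw [abs_mul, abs_of_pos hN]; ring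
    rw [e2]
    have e3 : |N * (s ^ 2 - t ^ 2)| ≤ 3 / 2 := by
      rw [abs_le]
      constructor <;> nlinarith
    linarith
  have h0 : 0 ≤ |s - t| := abs_nonneg _
  have h5 : |s - t| * lam ≤ 3 / (2 * N) := le_trans (by nlinarith) key
  rw [le_div_iff₀ (by positivity)] at h5 ⊢
  nlinarith

theorem meas : S_MEAS := by
  intro n N K κ hK1 hK2 hκ
  have hN : 0 < N := lt_of_lt_of_le (by positivity) hK1
  constructor
  · unfold A
    have m1 : Measurable fun ξ : Fin n → ℝ => N * (1 - ∑ j, ξ j ^ 2) := by fun_prop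
    refine MeasurableSet.inter (measurableSet_le measurable_const m1)
      (MeasurableSet.inter (measurableSet_le m1 measurable_const) ?_)
    have e1 : {ξ : Fin n → ℝ | ∀ j, |ξ j| ≤ 2 * (1 / 2 : ℝ) ^ κ j ∧
        (κ j < K → (1 / 2 : ℝ) ^ κ j / 2 ≤ |ξ j|)} = ⋂ j, {ξ : Fin n → ℝ |
          |ξ j| ≤ 2 * (1 / 2 : ℝ) ^ κ j ∧ (κ j < K → (1 / 2 : ℝ) ^ κ j / 2 ≤ |ξ j|)} := by
      ext ξ; simp
    have m2 : ∀ j, Measurable fun ξ : Fin n → ℝ => |ξ j| := fun j =>
      (measurable_pi_apply j).abs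
    have m3 : MeasurableSet {ξ : Fin n → ℝ | ∀ j, |ξ j| ≤ 2 * (1 / 2 : ℝ) ^ κ j ∧
        (κ j < K → (1 / 2 : ℝ) ^ κ j / 2 ≤ |ξ j|)} := by
      rw [e1]
      refine MeasurableSet.iInter fun j => ?_
      have e3 : MeasurableSet {ξ : Fin n → ℝ | κ j < K → (1 / 2 : ℝ) ^ κ j / 2 ≤ |ξ j|} := by
        by_cases hj : κ j < K
        · have e2 : {ξ : Fin n → ℝ | κ j < K → (1 / 2 : ℝ) ^ κ j / 2 ≤ |ξ j|}
              = {ξ : Fin n → ℝ | (1 / 2 : ℝ) ^ κ j / 2 ≤ |ξ j|} := by
            ext ξ; simp [hj]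
          rw [e2]
          exact measurableSet_le measurable_const (m2 j)
        · have e2 : {ξ : Fin n → ℝ | κ j < K → (1 / 2 : ℝ) ^ κ j / 2 ≤ |ξ j|} = univ := by
            ext ξ; simp [hj]
          rw [e2]
          exact MeasurableSet.univ
      exact MeasurableSet.inter (measurableSet_le (m2 j) measurable_const) e3
    exact m3
  · intro j x
    set lam : ℝ := (1 / 2 : ℝ) ^ κ j with hlam
    have hlam0 : 0 < lam := by positivity
    set c : ℝ := ∑ l ∈ Finset.univ.erase j, x l ^ 2 with hc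
    have hmem : ∀ t : ℝ, Function.update x j t ∈ A N K κ →
        1 / 2 ≤ N * (1 - (t ^ 2 + c)) ∧ N * (1 - (t ^ 2 + c)) ≤ 2 ∧ |t| ≤ 2 * lam ∧
          (κ j < K → lam / 2 ≤ |t|) := by
      rintro t ⟨h1, h2, h3⟩
      rw [sum_upd] at h1 h2
      have h4 := h3 j
      rw [Function.update_self] at h4
      exact ⟨h1, h2, h4.1, h4.2⟩
    rcases lt_or_eq_of_le (hκ j) with hj | hj
    · have hsub : {t : ℝ | Function.update x j t ∈ A N K κ} ⊆
          {t : ℝ | Function.update x j t ∈ A N K κ ∧ 0 ≤ t} ∪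
          {t : ℝ | Function.update x j t ∈ A N K κ ∧ t ≤ 0} := by
        intro t ht
        rcases le_total 0 t with h | h
        · exact Or.inl ⟨ht, h⟩
        · exact Or.inr ⟨ht, h⟩
      have v1 : volume {t : ℝ | Function.update x j t ∈ A N K κ ∧ 0 ≤ t} ≤
          ENNReal.ofReal (3 / (2 * (N * lam))) := by
        apply vol_diam
        rintro s ⟨hs, hs0⟩ t ⟨ht, ht0⟩
        obtain ⟨a1, a2, -, a4⟩ := hmem s hs
        obtain ⟨b1, b2, -, b4⟩ := hmem t ht
        have a5 := a4 hj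
        have b5 := b4 hj
        rw [abs_of_nonneg hs0] at a5
        rw [abs_of_nonneg ht0] at b5
        exact sq_close hN hlam0 a5 b5 a1 a2 b1 b2
      have v2 : volume {t : ℝ | Function.update x j t ∈ A N K κ ∧ t ≤ 0} ≤
          ENNReal.ofReal (3 / (2 * (N * lam))) := by
        apply vol_diam
        rintro s ⟨hs, hs0⟩ t ⟨ht, ht0⟩
        obtain ⟨a1, a2, -, a4⟩ := hmem s hs
        obtain ⟨b1, b2, -, b4⟩ := hmem t ht
        have a5 := a4 hj
        have b5 := b4 hj
        rw [abs_of_nonpos hs0] at a5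
        rw [abs_of_nonpos ht0] at b5
        have := sq_close (c := c) hN hlam0 a5 b5 (by rw [neg_sq]; exact a1)
          (by rw [neg_sq]; exact a2) (by rw [neg_sq]; exact b1) (by rw [neg_sq]; exact b2)
        have e : -s - -t = -(s - t) := by ring
        rwa [e, abs_neg] at this
      calc volume {t : ℝ | Function.update x j t ∈ A N K κ} ≤ _ := measure_mono hsub
        _ ≤ _ := measure_union_le _ _
        _ ≤ ENNReal.ofReal (3 / (2 * (N * lam))) + ENNReal.ofReal (3 / (2 * (N * lam))) :=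
            add_le_add v1 v2
        _ = ENNReal.ofReal (3 / (2 * (N * lam)) + 3 / (2 * (N * lam))) :=
            (ENNReal.ofReal_add (by positivity) (by positivity)).symm
        _ ≤ ENNReal.ofReal (16 / (N * lam)) := by
            apply ENNReal.ofReal_le_ofReal
            have : 3 / (2 * (N * lam)) + 3 / (2 * (N * lam)) = 3 / (N * lam) := by
              field_simp; norm_num
            rw [this]
            gcongr
            norm_num
    · have hsub : {t : ℝ | Function.update x j t ∈ A N K κ} ⊆ Icc (-(2 * lam)) (2 * lam) := by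
        intro t ht
        exact abs_le.1 (hmem t ht).2.2.1
      refine (measure_mono hsub).trans ?_
      rw [Real.volume_Icc]
      apply ENNReal.ofReal_le_ofReal
      rw [le_div_iff₀ (by positivity)]
      have h1 : (4 : ℝ) ^ K * lam ^ 2 = 1 := by
        rw [hlam, hj, ← pow_mul, mul_comm K 2, pow_mul, ← mul_pow]
        norm_num
      have h2 : N * lam ^ 2 ≤ 4 := by
        have : N * lam ^ 2 ≤ 4 ^ (K + 1) * lam ^ 2 :=
          mul_le_mul_of_nonneg_right hK2.le (by positivity)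
        calc N * lam ^ 2 ≤ 4 ^ (K + 1) * lam ^ 2 := this
          _ = 4 * (4 ^ K * lam ^ 2) := by ring
          _ = 4 := by rw [h1, mul_one]
      nlinarith

end Pool.Agent.W505.BT
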