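import Pool.Agent.W743.BT.Defs

set_option autoImplicit false

/-! BT-SL: sets with short slices. -/

namespace Pool.Agent.W505.BT

open Set Filter MeasureTheory
open scoped Topology ENNReal
open Pool.Agent.W743.BT

theorem split {m : ℕ} (i : Fin (m + 1)) (f : (Fin (m + 1) → ℝ) → ℝ≥0∞) (hf : Measurable f) :
    ∫⁻ x, f x = ∫⁻ y : Fin m → ℝ, ∫⁻ t : ℝ, f (i.insertNth t y) := by
  have e := (volume_preserving_piFinSuccAbove (fun _ : Fin (m + 1) => ℝ) i).symm
  have hm : Measurable fun p : ℝ × (Fin m → ℝ) =>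
      f ((MeasurableEquiv.piFinSuccAbove (fun _ : Fin (m + 1) => ℝ) i).symm p) :=
    hf.comp e.measurable
  rw [← e.lintegral_comp hf]
  rw [Measure.volume_eq_prod, lintegral_prod_symm _ hm.aemeasurable]
  rfl

theorem lint_prod (n : ℕ) (f : Fin n → ℝ → ℝ≥0∞) (hf : ∀ j, Measurable (f j)) :
    ∫⁻ x : Fin n → ℝ, ∏ j, f j (x j) = ∏ j, ∫⁻ t, f j t := by
  induction n with
  | zero =>
      simp only [Finset.univ_eq_empty, Finset.prod_empty, lintegral_one]
      rw [volume_pi, Measure.pi_empty_univ]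
  | succ m ih =>
      have hm0 : Measurable fun x : Fin (m + 1) → ℝ => ∏ j, f j (x j) :=
        Finset.measurable_prod _ fun j _ => (hf j).comp (measurable_pi_apply j)
      have hm1 : Measurable fun x : Fin m → ℝ => ∏ j : Fin m, f j.succ (x j) :=
        Finset.measurable_prod _ fun j _ => (hf _).comp (measurable_pi_apply j)
      rw [split 0 _ hm0]
      have h1 : ∀ y : Fin m → ℝ, ∫⁻ t : ℝ, ∏ j, f j ((Fin.insertNth 0 t y : Fin (m + 1) → ℝ) j)
          = (∫⁻ t, f 0 t) * ∏ j : Fin m, f j.succ (y j) := by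
        intro y
        rw [← lintegral_mul_const _ (hf 0)]
        refine lintegral_congr fun t => ?_
        rw [Fin.prod_univ_succ]
        rfl
      rw [lintegral_congr h1, lintegral_const_mul _ hm1, ih (fun j => f j.succ)
        (fun j => hf j.succ), Fin.prod_univ_succ]

theorem upd_ins {m : ℕ} (i : Fin (m + 1)) (s t : ℝ) (y : Fin m → ℝ) :
    Function.update (i.insertNth s y : Fin (m + 1) → ℝ) i t = i.insertNth t y := by
  funext j
  refine i.succAboveCases ?_ (fun k => ?_) j
  · rw [Function.update_self, Fin.insertNth_apply_same]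
  · rw [Function.update_of_ne (Fin.succAbove_ne i k), Fin.insertNth_apply_succAbove,
      Fin.insertNth_apply_succAbove]

theorem alg (m : ℕ) (c : Fin (m + 1) → ℝ≥0∞) (α a : ℝ) (hα : 0 ≤ α) (ha : 0 ≤ a) :
    (∏ j, c j) ^ a * ∏ i : Fin (m + 1), (∏ j : Fin m, c (i.succAbove j)) ^ α
      = ∏ j, c j ^ (a + m * α) := by
  have h1 : ∀ i : Fin (m + 1), (∏ j : Fin m, c (i.succAbove j)) ^ α
      = ∏ j ∈ Finset.univ.erase i, c j ^ α := by
    intro i
    rw [ENNReal.prod_rpow_of_nonneg hα]
    congr 1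
    have h2 : Finset.univ.erase i = Finset.univ.image i.succAbove := by
      rw [Fin.image_succAbove_univ, Finset.compl_eq_univ_sdiff, Finset.sdiff_singleton_eq_erase]
    rw [h2, Finset.prod_image (fun _ _ _ _ h => Fin.succAbove_right_injective h)]
  rw [Finset.prod_congr rfl fun i _ => h1 i, ← ENNReal.prod_rpow_of_nonneg ha]
  have h3 : ∏ i : Fin (m + 1), ∏ j ∈ Finset.univ.erase i, c j ^ α
      = ∏ j : Fin (m + 1), (c j ^ α) ^ m := by
    rw [Finset.prod_comm' (t' := Finset.univ) (s' := fun j => Finset.univ.erase j)]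
    · refine Finset.prod_congr rfl fun j _ => ?_
      rw [Finset.prod_const, Finset.card_erase_of_mem (Finset.mem_univ _), Finset.card_univ,
        Fintype.card_fin, Nat.add_sub_cancel]
    · intro i j
      simp [ne_comm]
  rw [h3, ← Finset.prod_mul_distrib]
  refine Finset.prod_congr rfl fun j _ => ?_
  rw [← ENNReal.rpow_natCast, ← ENNReal.rpow_mul, ← ENNReal.rpow_add_of_nonneg _ _ ha
    (by positivity), mul_comm α]

theorem sl : S_SL := by
  intro n hn B hB σ hσ F hF α hα hnα
  obtain ⟨m, rfl⟩ : ∃ m, n = m + 1 := ⟨n - 1, by omega⟩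
  have hm : (1 : ℝ) ≤ m := by
    have : 1 ≤ m := by omega
    exact_mod_cast this
  push_cast at hnα
  have hα1 : 0 < 1 - α := by nlinarith
  set a : ℝ := 1 - (m + 1) * α with ha
  have ha0 : 0 ≤ a := by linarith
  set r : ℝ := 1 / (1 - α) with hr
  have hr0 : 0 ≤ r := by positivity
  set G : Fin (m + 1) → ℝ → ℝ≥0∞ := fun j t => F j t ^ r with hG
  have hGm : ∀ j, Measurable (G j) := fun j => (hF j).pow_const r
  have hsum : a + m * α = 1 - α := by rw [ha]; ring
  have hpt : ∀ x : Fin (m + 1) → ℝ, ∏ j, F j (x j) = (∏ j, G j (x j)) ^ a *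
      ∏ i : Fin (m + 1), (∏ j : Fin m, G (i.succAbove j) (x (i.succAbove j))) ^ α := by
    intro x
    rw [alg m (fun j => G j (x j)) α a hα ha0, hsum]
    refine Finset.prod_congr rfl fun j _ => ?_
    rw [hG]
    simp only
    rw [← ENNReal.rpow_mul, hr, one_div, inv_mul_cancel₀ hα1.ne', ENNReal.rpow_one]
  have hg1 : Measurable fun x : Fin (m + 1) → ℝ => ∏ j, G j (x j) :=
    Finset.measurable_prod _ fun j _ => (hGm j).comp (measurable_pi_apply j)
  have hg2 : ∀ i : Fin (m + 1), Measurable fun x : Fin (m + 1) → ℝ =>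
      ∏ j : Fin m, G (i.succAbove j) (x (i.succAbove j)) := fun i =>
    Finset.measurable_prod _ fun j _ => (hGm _).comp (measurable_pi_apply _)
  have hH := ENNReal.lintegral_mul_prod_norm_pow_le (μ := volume.restrict B) Finset.univ
    (g := fun x : Fin (m + 1) → ℝ => ∏ j, G j (x j))
    (f := fun i x => ∏ j : Fin m, G (i.succAbove j) (x (i.succAbove j)))
    hg1.aemeasurable (fun i _ => (hg2 i).aemeasurable) a (p := fun _ => α)
    (by rw [Finset.sum_const, Finset.card_univ, Fintype.card_fin, nsmul_eq_mul, ha]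
        push_cast; ring) ha0 (fun _ _ => hα)
  have hfirst : ∫⁻ x in B, ∏ j, G j (x j) ≤ ∏ j, ∫⁻ t, G j t :=
    (setLIntegral_le_lintegral _ _).trans (le_of_eq (lint_prod _ G hGm))
  have hsecond : ∀ i : Fin (m + 1), ∫⁻ x in B, ∏ j : Fin m, G (i.succAbove j) (x (i.succAbove j))
      ≤ σ i * ∏ j : Fin m, ∫⁻ t, G (i.succAbove j) t := by
    intro i
    rw [← lintegral_indicator hB, split i _ ((hg2 i).indicator hB)]
    have h1 : ∀ y : Fin m → ℝ, ∫⁻ t : ℝ, B.indicator (fun x : Fin (m + 1) → ℝ =>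
        ∏ j : Fin m, G (i.succAbove j) (x (i.succAbove j))) (i.insertNth t y)
        ≤ σ i * ∏ j : Fin m, G (i.succAbove j) (y j) := by
      intro y
      have h2 : ∀ t : ℝ, B.indicator (fun x : Fin (m + 1) → ℝ =>
        ∏ j : Fin m, G (i.succAbove j) (x (i.succAbove j))) (i.insertNth t y)
          = ({t : ℝ | Function.update (i.insertNth 0 y : Fin (m + 1) → ℝ) i t ∈ B}).indicator
            (fun _ => ∏ j : Fin m, G (i.succAbove j) (y j)) t := by
        intro t
        by_cases h : (i.insertNth t y : Fin (m + 1) → ℝ) ∈ B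
        · have h' : t ∈ {t : ℝ | Function.update (i.insertNth 0 y : Fin (m + 1) → ℝ) i t ∈ B} := by
            show Function.update (i.insertNth 0 y : Fin (m + 1) → ℝ) i t ∈ B
            rw [upd_ins]
            exact h
          rw [Set.indicator_of_mem h, Set.indicator_of_mem h']
          exact Finset.prod_congr rfl fun j _ => by rw [Fin.insertNth_apply_succAbove]
        · have h' : t ∉ {t : ℝ | Function.update (i.insertNth 0 y : Fin (m + 1) → ℝ) i t ∈ B} := by
            intro hc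
            apply h
            have hc' : Function.update (i.insertNth 0 y : Fin (m + 1) → ℝ) i t ∈ B := hc
            rwa [upd_ins] at hc'
          rw [Set.indicator_of_notMem h, Set.indicator_of_notMem h']
      have hmeas : MeasurableSet
          {t : ℝ | Function.update (i.insertNth 0 y : Fin (m + 1) → ℝ) i t ∈ B} :=
        (measurable_update (i.insertNth 0 y : Fin (m + 1) → ℝ)) hB
      rw [lintegral_congr h2, lintegral_indicator hmeas, setLIntegral_const, mul_comm]
      exact mul_le_mul_left (hσ i _) _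
    refine (lintegral_mono h1).trans (le_of_eq ?_)
    have hm1 : Measurable fun x : Fin m → ℝ => ∏ j : Fin m, G (i.succAbove j) (x j) :=
      Finset.measurable_prod _ fun j _ => (hGm _).comp (measurable_pi_apply j)
    rw [lintegral_const_mul _ hm1, lint_prod m (fun j => G (i.succAbove j)) (fun j => hGm _)]
  calc ∫⁻ x in B, ∏ j, F j (x j) = ∫⁻ x in B, (∏ j, G j (x j)) ^ a *
      ∏ i : Fin (m + 1), (∏ j : Fin m, G (i.succAbove j) (x (i.succAbove j))) ^ α := by
        simp only [hpt]
    _ ≤ (∫⁻ x in B, ∏ j, G j (x j)) ^ a * ∏ i : Fin (m + 1),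
        (∫⁻ x in B, ∏ j : Fin m, G (i.succAbove j) (x (i.succAbove j))) ^ α := hH
    _ ≤ (∏ j, ∫⁻ t, G j t) ^ a * ∏ i : Fin (m + 1),
        (σ i * ∏ j : Fin m, ∫⁻ t, G (i.succAbove j) t) ^ α := by
        refine mul_le_mul' (ENNReal.rpow_le_rpow hfirst ha0) ?_
        exact Finset.prod_le_prod' fun i _ => ENNReal.rpow_le_rpow (hsecond i) hα
    _ = (∏ i, σ i ^ α) * ((∏ j, ∫⁻ t, G j t) ^ a * ∏ i : Fin (m + 1),
        (∏ j : Fin m, ∫⁻ t, G (i.succAbove j) t) ^ α) := by
        have h1 : ∀ i : Fin (m + 1), (σ i * ∏ j : Fin m, ∫⁻ t, G (i.succAbove j) t) ^ α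
            = σ i ^ α * (∏ j : Fin m, ∫⁻ t, G (i.succAbove j) t) ^ α := fun i =>
          ENNReal.mul_rpow_of_nonneg _ _ hα
        rw [Finset.prod_congr rfl fun i _ => h1 i, Finset.prod_mul_distrib]
        ring
    _ = ∏ j, (σ j ^ α * (∫⁻ t, F j t ^ (1 / (1 - α))) ^ (1 - α)) := by
        rw [alg m (fun j => ∫⁻ t, G j t) α a hα ha0, hsum, ← Finset.prod_mul_distrib]

end Pool.Agent.W505.BT
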