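import Pool.Agent.W743.BT.Defs

set_option autoImplicit false

/-! BT-YOUNG: convolution with an integrable kernel. -/

namespace Pool.Agent.W505.BT

open Set Filter MeasureTheory
open scoped Topology ENNReal
open Pool.Agent.W743.BT
open Pool.Agent.W773.BRA (E)

theorem young : S_YOUNG := by
  intro n p hp k F hk hF
  have hp0 : 0 ≤ p := by linarith
  have hkk : ∀ x : E n, Measurable fun y : E n => k (x - y) := fun x =>
    hk.comp (measurable_const.sub measurable_id)
  have hint : ∀ x : E n, ∫⁻ y, k (x - y) = ∫⁻ y, k y := fun x => lintegral_sub_left_eq_self k x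
  have hstep : ∀ x : E n, (∫⁻ y, k (x - y) * F y) ^ p ≤
      (∫⁻ y, k y) ^ (p - 1) * ∫⁻ y, k (x - y) * F y ^ p := by
    intro x
    rcases eq_or_lt_of_le hp with h1 | h1
    · rw [← h1, sub_self, ENNReal.rpow_zero, one_mul, ENNReal.rpow_one]
      simp only [ENNReal.rpow_one]
      exact le_refl _
    · have hpq : p.HolderConjugate (p / (p - 1)) := Real.HolderConjugate.conjExponent h1
      have hq : 1 / p + 1 / (p / (p - 1)) = 1 := by
        rw [one_div, one_div]; exact hpq.inv_add_inv_eq_one
      have hpp : 0 < p := by linarith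
      have hqq : 0 < p / (p - 1) := div_pos hpp (by linarith)
      have e1 : ∀ y, k (x - y) * F y = ((fun y => k (x - y) ^ (1 / p) * F y) *
          fun y => k (x - y) ^ (1 / (p / (p - 1)))) y := by
        intro y
        simp only [Pi.mul_apply]
        have : k (x - y) = k (x - y) ^ (1 / p) * k (x - y) ^ (1 / (p / (p - 1))) := by
          rw [← ENNReal.rpow_add_of_nonneg _ _ (by positivity) (by positivity), hq,
            ENNReal.rpow_one]
        conv_lhs => rw [this]
        ring
      have hH := ENNReal.lintegral_mul_le_Lp_mul_Lq volume hpq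
        (f := fun y => k (x - y) ^ (1 / p) * F y) (g := fun y => k (x - y) ^ (1 / (p / (p - 1))))
        (((hkk x).pow_const _).mul hF).aemeasurable ((hkk x).pow_const _).aemeasurable
      rw [← lintegral_congr e1] at hH
      have hH2 := ENNReal.rpow_le_rpow hH hp0
      refine hH2.trans (le_of_eq ?_)
      rw [ENNReal.mul_rpow_of_nonneg _ _ hp0, ← ENNReal.rpow_mul, ← ENNReal.rpow_mul]
      have e2 : ∀ y, (k (x - y) ^ (1 / p) * F y) ^ p = k (x - y) * F y ^ p := by
        intro y
        rw [ENNReal.mul_rpow_of_nonneg _ _ hp0, ← ENNReal.rpow_mul, one_div,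
          inv_mul_cancel₀ hpp.ne', ENNReal.rpow_one]
      have e3 : ∀ y, (k (x - y) ^ (1 / (p / (p - 1)))) ^ (p / (p - 1)) = k (x - y) := by
        intro y
        rw [← ENNReal.rpow_mul, one_div, inv_mul_cancel₀ hqq.ne', ENNReal.rpow_one]
      rw [lintegral_congr e2, lintegral_congr e3, hint x, one_div_mul_cancel hpp.ne',
        ENNReal.rpow_one, mul_comm]
      congr 2
      field_simp
  have hmeas : Measurable fun z : E n × E n => k (z.1 - z.2) * F z.2 ^ p :=
    (hk.comp (measurable_fst.sub measurable_snd)).mul ((hF.comp measurable_snd).pow_const p)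
  calc ∫⁻ x, (∫⁻ y, k (x - y) * F y) ^ p
      ≤ ∫⁻ x, (∫⁻ y, k y) ^ (p - 1) * ∫⁻ y, k (x - y) * F y ^ p := lintegral_mono hstep
    _ = (∫⁻ y, k y) ^ (p - 1) * ∫⁻ x, ∫⁻ y, k (x - y) * F y ^ p :=
        lintegral_const_mul _ hmeas.lintegral_prod_right'
    _ = (∫⁻ y, k y) ^ (p - 1) * ∫⁻ y, ∫⁻ x, k (x - y) * F y ^ p := by
        rw [lintegral_lintegral_swap hmeas.aemeasurable]
    _ = (∫⁻ y, k y) ^ (p - 1) * ∫⁻ y, (∫⁻ x, k x) * F y ^ p := by
        congr 1
        refine lintegral_congr fun y => ?_
        have hky : Measurable fun x : E n => k (x - y) :=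
          hk.comp (measurable_id.sub measurable_const)
        rw [lintegral_mul_const _ hky]
        congr 1
        exact lintegral_sub_right_eq_self k y
    _ = (∫⁻ y, k y) ^ (p - 1) * ((∫⁻ x, k x) * ∫⁻ y, F y ^ p) := by
        rw [lintegral_const_mul _ (hF.pow_const p)]
    _ = (∫⁻ x, k x) ^ p * ∫⁻ y, F y ^ p := by
        rw [← mul_assoc]
        congr 1
        conv_lhs => rw [← ENNReal.rpow_one (∫⁻ x, k x)]
        rw [← ENNReal.rpow_mul, one_mul, ← ENNReal.rpow_add_of_nonneg _ _ (by linarith)
          (by norm_num)]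
        congr 1
        ring

end Pool.Agent.W505.BT
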